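import Mathlib
import Pool.Agent.H426Z.RC.Ex3

/-!
# Random conductances can speed the walk up on a non-amenable unimodular graph
-/

open MeasureTheory

namespace Pool.Agent.Results.MP_d2d64b_pr.Speedup

open Pool.Agent.H426Z.RC

theorem result : ∃ (V : Type) (_ : Countable V) (_ : MeasurableSpace V)
    (_ : DiscreteMeasurableSpace V) (G : SimpleGraph V) (μ : Measure V) (ν : Measure ℝ)
    (vS vC : ℝ),
    G.Connected ∧ (∃ D : ℕ, ∀ v, (G.neighborSet v).encard ≤ D) ∧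
    IsProbabilityMeasure μ ∧ MassTransport G μ ∧
    (∃ h : ℝ, 0 < h ∧ ∀ S : Finset V,
      h * S.card ≤ {e : V × V | e.1 ∈ S ∧ e.2 ∉ S ∧ G.Adj e.1 e.2}.ncard) ∧
    IsProbabilityMeasure ν ∧ (∀ᵐ t ∂ν, 0 < t) ∧ Integrable (fun t : ℝ => t) ν ∧
    (∀ a, ν ≠ Measure.dirac a) ∧
    HasSpeed G μ (Measure.dirac 1) vS ∧ HasSpeed G μ ν vC ∧ 0 < vS ∧ vS < vC := by
  obtain ⟨A, _, _, hA⟩ : ∃ (A : Type) (_ : Fintype A) (_ : DecidableEq A),
    Fintype.card A = 10000 := ⟨Fin 10000, inferInstance, inferInstance, Fintype.card_fin _⟩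
  obtain ⟨B, _, _, hB⟩ : ∃ (B : Type) (_ : Fintype B) (_ : DecidableEq B),
    Fintype.card B = 1000 := ⟨Fin 1000, inferInstance, inferInstance, Fintype.card_fin _⟩
  haveI : Nonempty A := Fintype.card_pos_iff.1 (by omega)
  haveI : Nonempty B := Fintype.card_pos_iff.1 (by omega)
  obtain ⟨K, _, k0, hK⟩ : ∃ (K : Type) (_ : Fintype K) (_ : K),
    2000 * om A B 1000 + 1 ≤ Fintype.card K := ⟨Fin (2000 * om A B 1000 + 1), inferInstance, 0,
      (Fintype.card_fin _).ge⟩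
  letI : MeasurableSpace (Fg A B) := ⊤
  letI : MeasurableSpace (Rr A K) := ⊤
  haveI : DiscreteMeasurableSpace (Fg A B) := ⟨fun _ => trivial⟩
  haveI : DiscreteMeasurableSpace (Rr A K) := ⟨fun _ => trivial⟩
  haveI : Nonempty (Rr A K) := ⟨Sum.inl k0⟩
  have hL : 1 ≤ 1000 := by norm_num
  have hG : QT (Gr A B k0 1000) := qt hL
  obtain ⟨vS, vC, h1, h2, h3, h4⟩ := speeds (k0 := k0) hA hB hK
  refine ⟨Fg A B × Rr A K, inferInstance, inferInstance, inferInstance, Gr A B k0 1000,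
    root (Fg A B) (Rr A K), nu, vS, vC, hG.conn, ⟨∑ r, (hG.N (1, r)).card, fun v => ?_⟩,
    root_prob, hG.massTransport, ⟨1003⁻¹, by norm_num, hG.cheeger Phi1 (by norm_num)
      (fun x y h => ?_) (Phi1_drift hG ?_)⟩, nu_prob, ?_, integrable_nu, nu_ne, h1, h2, h3, h4⟩
  · have e1 : (Gr A B k0 1000).neighborSet v = hG.N v := by
      ext y
      simp
    have e2 := hG.sum_N_sh v.1 (1, v.2) fun _ => 1
    simp only [sh_base, Finset.sum_const, nsmul_eq_mul, mul_one, Nat.cast_inj] at e2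
    rw [e1, Set.encard_coe_eq_coe_finsetCard, e2]
    exact_mod_cast Finset.single_le_sum (f := fun r => (hG.N (1, r)).card)
      (fun _ _ => Nat.zero_le _) (Finset.mem_univ v.2)
  · have := (abs_le.1 (Phi1_lip hL h)).2
    push_cast at this
    linarith
  · have hK' : 2000 * (om A B 1000 : ℝ) + 1 ≤ Fintype.card K := by exact_mod_cast hK
    have hom : (0 : ℝ) ≤ om A B 1000 := Nat.cast_nonneg _
    rw [hB]
    push_cast
    linarith
  · filter_upwards [ae_nu] with t ht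
    linarith [ht.1]

end Pool.Agent.Results.MP_d2d64b_pr.Speedup
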